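import Mathlib

set_option autoImplicit false

namespace Pool.Agent.Lib.MP_9d720b_co

open Finset Function
open scoped Classical

variable {k m : ℕ}

/-- The map on index sets induced by a zero pattern. -/
noncomputable def step (Z : Fin (m + 2) → (Fin k → Fin (m + 2)) → Prop)
    (S : Finset (Fin (m + 2))) : Finset (Fin (m + 2)) :=
  univ.filter fun i => ∃ f, Z i f ∧ ∀ t, f t ∈ S

variable (Z : Fin (m + 2) → (Fin k → Fin (m + 2)) → Prop)

theorem mem_step {S : Finset (Fin (m + 2))} {i : Fin (m + 2)} :
    i ∈ step Z S ↔ ∃ f, Z i f ∧ ∀ t, f t ∈ S := by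
  simp [step]

theorem step_mono : Monotone (step Z) := by
  intro S T h i hi
  rw [mem_step] at hi ⊢
  obtain ⟨f, h1, h2⟩ := hi
  exact ⟨f, h1, fun t => h (h2 t)⟩

theorem iter_mono (r : ℕ) : Monotone ((step Z)^[r]) := (step_mono Z).iterate r

theorem iter_succ (r : ℕ) (S : Finset (Fin (m + 2))) :
    (step Z)^[r + 1] S = step Z ((step Z)^[r] S) := iterate_succ_apply' _ _ _

theorem iter_add (r s : ℕ) (S : Finset (Fin (m + 2))) :
    (step Z)^[r + s] S = (step Z)^[s] ((step Z)^[r] S) := by
  rw [Nat.add_comm r s, iterate_add_apply]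

theorem mem_iter_succ {r : ℕ} {S : Finset (Fin (m + 2))} {x y : Fin (m + 2)}
    (hx : x ∈ (step Z)^[r] S) (hy : y ∈ step Z {x}) : y ∈ (step Z)^[r + 1] S := by
  rw [iter_succ]
  exact step_mono Z (singleton_subset_iff.2 hx) hy

theorem mem_iter_add {r s : ℕ} {S : Finset (Fin (m + 2))} {x y : Fin (m + 2)}
    (hx : x ∈ (step Z)^[r] S) (hy : y ∈ (step Z)^[s] {x}) : y ∈ (step Z)^[r + s] S := by
  rw [iter_add]
  exact iter_mono Z s (singleton_subset_iff.2 hx) hy

theorem iter_univ (hU : step Z univ = univ) (s : ℕ) : (step Z)^[s] univ = univ := by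
  induction s with
  | zero => rfl
  | succ s ih => rw [iter_succ, ih, hU]

theorem iter_univ_le (hU : step Z univ = univ) {r s : ℕ} (h : r ≤ s) {S : Finset (Fin (m + 2))}
    (hr : (step Z)^[r] S = univ) : (step Z)^[s] S = univ := by
  obtain ⟨d, rfl⟩ := Nat.exists_eq_add_of_le h
  rw [iter_add, hr, iter_univ Z hU]

/-- A vertex on a closed walk of length `p` fills everything after `p (n - 1)` steps. -/
theorem closed_full (hU : step Z univ = univ) (v : Fin (m + 2)) (p : ℕ) (hp : 1 ≤ p)
    (hv : v ∈ (step Z)^[p] {v}) (hR : ∃ R, (step Z)^[R] {v} = univ) :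
    (step Z)^[p * (m + 1)] {v} = univ := by
  have hsub : ∀ t, (step Z)^[p * t] {v} ⊆ (step Z)^[p * (t + 1)] {v} := by
    intro t
    rw [mul_add, mul_one, Nat.add_comm (p * t) p, iter_add]
    exact iter_mono Z _ (singleton_subset_iff.2 hv)
  have hstab : ∀ t, (step Z)^[p * t] {v} = (step Z)^[p * (t + 1)] {v} →
      (step Z)^[p * t] {v} = univ := by
    intro t ht
    have h1 : ∀ s, (step Z)^[p * (t + s)] {v} = (step Z)^[p * t] {v} := by
      intro s
      induction s with
      | zero => rfl
      | succ s ih =>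
        have e1 : p * (t + (s + 1)) = p * (t + s) + p := by ring
        have e2 : p * (t + 1) = p * t + p := by ring
        rw [e1, iter_add, ih, ← iter_add, ← e2, ← ht]
    obtain ⟨R, hR⟩ := hR
    rw [← h1 R]
    refine iter_univ_le Z hU ?_ hR
    calc R ≤ t + R := Nat.le_add_left _ _
      _ = 1 * (t + R) := (one_mul _).symm
      _ ≤ p * (t + R) := Nat.mul_le_mul_right _ hp
  have hcard : ∀ t, t + 1 ≤ ((step Z)^[p * t] {v}).card ∨ (step Z)^[p * t] {v} = univ := by
    intro t
    induction t with
    | zero => left; simp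
    | succ t ih =>
      rcases ih with ih | ih
      · by_cases heq : (step Z)^[p * t] {v} = (step Z)^[p * (t + 1)] {v}
        · right
          rw [← heq]
          exact hstab t heq
        · left
          have := card_lt_card (lt_of_le_of_ne (hsub t) heq)
          omega
      · right
        exact iter_univ_le Z hU (Nat.mul_le_mul_left _ (Nat.le_succ t)) ih
  rcases hcard (m + 1) with h | h
  · have h2 := card_le_univ ((step Z)^[p * (m + 1)] {v})
    rw [Fintype.card_fin] at h2
    rw [← Finset.card_eq_iff_eq_univ, Fintype.card_fin]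
    omega
  · exact h

/-- Walks in the digraph of singletons. -/
def IsWalk (w : ℕ → Fin (m + 2)) : Prop := ∀ t, w (t + 1) ∈ step Z {w t}

theorem walk_mem {w : ℕ → Fin (m + 2)} (hw : IsWalk Z w) (a s : ℕ) :
    w (a + s) ∈ (step Z)^[s] {w a} := by
  induction s with
  | zero => simp
  | succ s ih => exact mem_iter_succ Z ih (hw (a + s))

/-- Repetitions in an extremal walk happen only at the very end. -/
theorem walk_rep (hfull : ∀ j, (step Z)^[(m + 1) ^ 2 + 1] {j} = univ) {w : ℕ → Fin (m + 2)}
    (hw : IsWalk Z w) (h0 : (step Z)^[(m + 1) ^ 2] {w 0} ≠ univ) {a b : ℕ} (hab : a < b)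
    (hb : b ≤ m + 2) (heq : w a = w b) : b = m + 2 ∧ (a = 0 ∨ a = 1) := by
  have hU : step Z univ = univ := by
    apply eq_univ_of_forall
    intro x
    have h1 := hfull 0
    rw [iter_succ] at h1
    have h2 : x ∈ step Z ((step Z)^[(m + 1) ^ 2] {0}) := by rw [h1]; exact mem_univ _
    exact step_mono Z (subset_univ _) h2
  obtain ⟨p, rfl⟩ := Nat.exists_eq_add_of_lt hab
  have hv : w a ∈ (step Z)^[p + 1] {w a} := by
    have := walk_mem Z hw a (p + 1)
    rwa [← add_assoc, ← heq] at this
  have h1 := closed_full Z hU (w a) (p + 1) (by omega) hv ⟨_, hfull _⟩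
  have h2 : w a ∈ (step Z)^[a] {w 0} := by
    have := walk_mem Z hw 0 a
    rwa [zero_add] at this
  have h3 : (step Z)^[a + (p + 1) * (m + 1)] {w 0} = univ := by
    rw [iter_add]
    apply eq_univ_of_forall
    intro x
    apply iter_mono Z _ (singleton_subset_iff.2 h2)
    rw [h1]
    exact mem_univ _
  have h4 : ¬ a + (p + 1) * (m + 1) ≤ (m + 1) ^ 2 := fun h => h0 (iter_univ_le Z hU h h3)
  have h5 : (m + 1) ^ 2 < a + (p + 1) * (m + 1) := not_le.1 h4
  have h6 : m ≤ p := by
    by_contra hlt
    push Not at hlt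
    have : (p + 1) * (m + 1) ≤ m * (m + 1) := Nat.mul_le_mul_right _ hlt
    nlinarith
  rcases Nat.lt_or_ge m p with h7 | h7
  · constructor
    · omega
    · omega
  · have : p = m := le_antisymm h7 h6
    subst this
    constructor
    · by_contra hne
      have ha : a = 0 := by omega
      subst ha
      nlinarith
    · omega

end Pool.Agent.Lib.MP_9d720b_co
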