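import Pool.Agent.Lib.MP_9d720b_co.Step

set_option autoImplicit false

namespace Pool.Agent.Lib.MP_9d720b_co

open Finset Function
open scoped Classical

variable {k m : ℕ} (Z : Fin (m + 2) → (Fin k → Fin (m + 2)) → Prop)

theorem step_empty (hk : 0 < k) : step Z ∅ = ∅ := by
  ext i
  rw [mem_step]
  constructor
  · rintro ⟨f, _, h⟩
    exact absurd (h ⟨0, hk⟩) (notMem_empty _)
  · intro h
    exact absurd h (notMem_empty _)

theorem iter_empty (hk : 0 < k) (r : ℕ) : (step Z)^[r] ∅ = ∅ := by
  induction r with
  | zero => rfl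
  | succ r ih => rw [iter_succ, ih, step_empty Z hk]

theorem univ_not_subset_singleton (v : Fin (m + 2)) : ¬ (univ : Finset (Fin (m + 2))) ⊆ {v} := by
  intro h
  have := card_le_card h
  rw [card_univ, Fintype.card_fin, card_singleton] at this
  omega

theorem exists_succ (hk : 0 < k) (hfull : ∀ j, (step Z)^[(m + 1) ^ 2 + 1] {j} = univ)
    (v : Fin (m + 2)) : ∃ u, u ∈ step Z {v} := by
  by_contra h
  push Not at h
  have h1 : step Z {v} = ∅ := eq_empty_of_forall_notMem h
  have h2 := hfull v
  rw [iterate_succ_apply, h1, iter_empty Z hk] at h2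
  have h3 : v ∈ (∅ : Finset (Fin (m + 2))) := by rw [h2]; exact mem_univ _
  exact notMem_empty _ h3

/-- Change a walk after time `i` by jumping to the vertex it visits at time `l`. -/
def splice (w : ℕ → Fin (m + 2)) (i l : ℕ) : ℕ → Fin (m + 2) :=
  fun t => if t ≤ i then w t else w (l + (t - (i + 1)))

theorem splice_walk {w : ℕ → Fin (m + 2)} (hw : IsWalk Z w) {i l : ℕ}
    (h : w l ∈ step Z {w i}) : IsWalk Z (splice w i l) := by
  intro t
  rcases lt_trichotomy t i with h1 | h1 | h1
  · have e1 : splice w i l (t + 1) = w (t + 1) := if_pos h1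
    have e2 : splice w i l t = w t := if_pos h1.le
    rw [e1, e2]
    exact hw t
  · subst h1
    have e1 : splice w t l (t + 1) = w l := by
      unfold splice
      rw [if_neg (by omega)]
      congr 1
      omega
    have e2 : splice w t l t = w t := if_pos le_rfl
    rw [e1, e2]
    exact h
  · have e1 : splice w i l (t + 1) = w (l + (t - (i + 1)) + 1) := by
      unfold splice
      rw [if_neg (by omega)]
      congr 1
      omega
    have e2 : splice w i l t = w (l + (t - (i + 1))) := if_neg (by omega)
    rw [e1, e2]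
    exact hw _

theorem splice_of_le {w : ℕ → Fin (m + 2)} {i l t : ℕ} (h : t ≤ i) :
    splice w i l t = w t := if_pos h

theorem splice_of_gt {w : ℕ → Fin (m + 2)} {i l t : ℕ} (h : i < t) :
    splice w i l t = w (l + (t - (i + 1))) := if_neg (by omega)

/-- Structure of the singleton digraph in the extremal case. -/
theorem exists_struct (hk : 0 < k) (hfull : ∀ j, (step Z)^[(m + 1) ^ 2 + 1] {j} = univ)
    (j0 : Fin (m + 2)) (h0 : (step Z)^[(m + 1) ^ 2] {j0} ≠ univ) :
    ∃ w : ℕ → Fin (m + 2), w 0 = j0 ∧
      (∀ a b, a < m + 2 → b < m + 2 → w a = w b → a = b) ∧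
      (∀ i ≤ m, step Z {w i} = {w (i + 1)}) ∧ step Z {w (m + 1)} = {w 0, w 1} := by
  choose g hg using exists_succ Z hk hfull
  have hrep : ∀ w : ℕ → Fin (m + 2), IsWalk Z w → w 0 = j0 → ∀ a b, a < b → b ≤ m + 2 →
      w a = w b → b = m + 2 ∧ (a = 0 ∨ a = 1) := by
    intro w hw hw0 a b hab hb heq
    exact walk_rep Z hfull hw (by rw [hw0]; exact h0) hab hb heq
  obtain ⟨w, hw, hw0⟩ : ∃ w : ℕ → Fin (m + 2), IsWalk Z w ∧ w 0 = j0 := by
    refine ⟨fun t => g^[t] j0, ?_, rfl⟩
    intro t
    change g^[t + 1] j0 ∈ step Z {g^[t] j0}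
    rw [iterate_succ_apply']
    exact hg _
  have hinj : ∀ a b, a < m + 2 → b < m + 2 → w a = w b → a = b := by
    intro a b ha hb heq
    rcases lt_trichotomy a b with h | h | h
    · have := (hrep w hw hw0 a b h hb.le heq).1
      omega
    · exact h
    · have := (hrep w hw hw0 b a h ha.le heq.symm).1
      omega
  have hsurj : ∀ u, ∃ l, l < m + 2 ∧ w l = u := by
    intro u
    have h1 : Injective (fun i : Fin (m + 2) => w i) := by
      intro a b h
      exact Fin.ext (hinj a b a.2 b.2 h)
    obtain ⟨l, hl⟩ := (Finite.injective_iff_surjective.1 h1) u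
    exact ⟨l, l.2, hl⟩
  have hlast : w (m + 2) = w 0 ∨ w (m + 2) = w 1 := by
    obtain ⟨l, hl, hl2⟩ := hsurj (w (m + 2))
    rcases (hrep w hw hw0 l (m + 2) hl le_rfl hl2).2 with h | h
    · left; rw [← hl2, h]
    · right; rw [← hl2, h]
  have hge : ∀ i l, i ≤ m → w l ∈ step Z {w i} → i + 1 ≤ l := by
    intro i l hi hu
    by_contra hlt
    push Not at hlt
    have h1 := splice_walk Z hw hu
    have h2 : splice w i l 0 = j0 := by rw [splice_of_le (Nat.zero_le _), hw0]
    have h3 : splice w i l l = splice w i l (i + 1) := by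
      rw [splice_of_le (by omega), splice_of_gt (by omega)]
      congr 1
      omega
    have := (hrep _ h1 h2 l (i + 1) hlt (by omega) h3).1
    omega
  have claim1 : ∀ i, 1 ≤ i → i ≤ m → ∀ u, u ∈ step Z {w i} → u = w (i + 1) := by
    intro i hi1 hi2 u hu
    obtain ⟨l, hl, rfl⟩ := hsurj u
    have hil := hge i l hi2 hu
    by_contra hne
    have hl2 : i + 2 ≤ l := by
      rcases Nat.lt_or_ge l (i + 2) with h | h
      · have : l = i + 1 := by omega
        exact absurd (by rw [this]) hne
      · exact h
    have h1 := splice_walk Z hw hu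
    have h2 : splice w i l 0 = j0 := by rw [splice_of_le (Nat.zero_le _), hw0]
    have h3 : splice w i l (i + 1 + (m + 2 - l)) = w (m + 2) := by
      rw [splice_of_gt (by omega)]
      congr 1
      omega
    rcases hlast with h | h
    · have h4 : splice w i l 0 = splice w i l (i + 1 + (m + 2 - l)) := by
        rw [h3, h, splice_of_le (Nat.zero_le _)]
      have := (hrep _ h1 h2 0 _ (by omega) (by omega) h4).1
      omega
    · have h4 : splice w i l 1 = splice w i l (i + 1 + (m + 2 - l)) := by
        rw [h3, h, splice_of_le hi1]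
      have := (hrep _ h1 h2 1 _ (by omega) (by omega) h4).1
      omega
  have claim2 : ∀ u, u ∈ step Z {w (m + 1)} → u = w 0 ∨ u = w 1 := by
    intro u hu
    obtain ⟨l, hl, rfl⟩ := hsurj u
    have h1 := splice_walk Z hw hu
    have h2 : splice w (m + 1) l 0 = j0 := by rw [splice_of_le (Nat.zero_le _), hw0]
    have h3 : splice w (m + 1) l l = splice w (m + 1) l (m + 2) := by
      rw [splice_of_le (by omega), splice_of_gt (by omega)]
      congr 1
      omega
    rcases (hrep _ h1 h2 l (m + 2) hl le_rfl h3).2 with h | h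
    · left; rw [h]
    · right; rw [h]
  have claim3 : w 0 ∈ step Z {w (m + 1)} := by
    by_contra hne
    have hsub : step Z {w (m + 1)} ⊆ {w 1} := by
      intro u hu
      rcases claim2 u hu with h | h
      · exact absurd (h ▸ hu) hne
      · exact mem_singleton.2 h
    have h1 : ∀ t, ∃ i, 1 ≤ i ∧ i ≤ m + 1 ∧ (step Z)^[t] {w 1} ⊆ {w i} := by
      intro t
      induction t with
      | zero => exact ⟨1, le_rfl, by omega, Subset.refl _⟩
      | succ t ih =>
        obtain ⟨i, hi1, hi2, hi3⟩ := ih
        rw [iter_succ]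
        rcases Nat.lt_or_ge m i with h | h
        · have : i = m + 1 := by omega
          subst this
          exact ⟨1, le_rfl, by omega, (step_mono Z hi3).trans hsub⟩
        · refine ⟨i + 1, by omega, by omega, (step_mono Z hi3).trans ?_⟩
          intro u hu
          exact mem_singleton.2 (claim1 i hi1 h u hu)
    obtain ⟨i, _, _, hi⟩ := h1 ((m + 1) ^ 2 + 1)
    rw [hfull] at hi
    exact univ_not_subset_singleton _ hi
  have claim0 : ∀ u, u ∈ step Z {w 0} → u = w 1 := by
    intro u hu
    obtain ⟨l, hl, rfl⟩ := hsurj u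
    have hl1 := hge 0 l (Nat.zero_le _) hu
    by_contra hne
    have hl2 : 2 ≤ l := by
      rcases Nat.lt_or_ge l 2 with h | h
      · have : l = 1 := by omega
        exact absurd (by rw [this]) hne
      · exact h
    have h1 := splice_walk Z hw claim3
    have hu' : splice w (m + 1) 0 l ∈ step Z {splice w (m + 1) 0 0} := by
      rw [splice_of_le (by omega), splice_of_le (by omega)]
      exact hu
    have h2 := splice_walk Z h1 hu'
    have h3 : splice (splice w (m + 1) 0) 0 l 0 = j0 := by
      rw [splice_of_le le_rfl, splice_of_le (Nat.zero_le _), hw0]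
    have h4 : splice (splice w (m + 1) 0) 0 l (1 + (m + 2 - l)) = w 0 := by
      rw [splice_of_gt (by omega)]
      have e : l + (1 + (m + 2 - l) - (0 + 1)) = m + 2 := by omega
      rw [e, splice_of_gt (by omega)]
      congr 1
      omega
    have h5 : splice (splice w (m + 1) 0) 0 l 0 =
        splice (splice w (m + 1) 0) 0 l (1 + (m + 2 - l)) := by
      rw [h3, h4, hw0]
    have := (hrep _ h2 h3 0 _ (by omega) (by omega) h5).1
    omega
  have claimAll : ∀ i, i ≤ m → ∀ u, u ∈ step Z {w i} → u = w (i + 1) := by
    intro i hi u hu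
    rcases Nat.eq_zero_or_pos i with h | h
    · subst h
      exact claim0 u hu
    · exact claim1 i h hi u hu
  have claim4 : w 1 ∈ step Z {w (m + 1)} := by
    by_contra hne
    have hsub : step Z {w (m + 1)} ⊆ {w 0} := by
      intro u hu
      rcases claim2 u hu with h | h
      · exact mem_singleton.2 h
      · exact absurd (h ▸ hu) hne
    have h1 : ∀ t, ∃ i, i ≤ m + 1 ∧ (step Z)^[t] {w 0} ⊆ {w i} := by
      intro t
      induction t with
      | zero => exact ⟨0, by omega, Subset.refl _⟩
      | succ t ih =>
        obtain ⟨i, hi2, hi3⟩ := ih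
        rw [iter_succ]
        rcases Nat.lt_or_ge m i with h | h
        · have : i = m + 1 := by omega
          subst this
          exact ⟨0, by omega, (step_mono Z hi3).trans hsub⟩
        · refine ⟨i + 1, by omega, (step_mono Z hi3).trans ?_⟩
          intro u hu
          exact mem_singleton.2 (claimAll i h u hu)
    obtain ⟨i, _, hi⟩ := h1 ((m + 1) ^ 2 + 1)
    rw [hfull] at hi
    exact univ_not_subset_singleton _ hi
  refine ⟨w, hw0, hinj, ?_, ?_⟩
  · intro i hi
    apply Subset.antisymm
    · intro u hu
      exact mem_singleton.2 (claimAll i hi u hu)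
    · exact singleton_subset_iff.2 (hw i)
  · apply Subset.antisymm
    · intro u hu
      rcases claim2 u hu with h | h
      · rw [h]; exact mem_insert_self _ _
      · rw [h]; exact mem_insert_of_mem (mem_singleton_self _)
    · intro u hu
      rcases mem_insert.1 hu with h | h
      · rw [h]; exact claim3
      · rw [mem_singleton.1 h]; exact claim4

end Pool.Agent.Lib.MP_9d720b_co
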