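import Pool.Agent.Lib.MP_9d720b_co.Struct

set_option autoImplicit false

namespace Pool.Agent.Lib.MP_9d720b_co

open Finset Function
open scoped Classical

variable {k m : ℕ} (Z : Fin (m + 2) → (Fin k → Fin (m + 2)) → Prop)

/-- The singleton digraph is that of the Wielandt matrix. -/
def IsW : Prop := ∀ i j : Fin (m + 2),
  i ∈ step Z {j} ↔ (j.val = i.val + 1 ∨ (i.val = m + 1 ∧ (j.val = 0 ∨ j.val = 1)))

/-- The condition on the other entries. -/
def Cond : Prop := ∀ (i : Fin (m + 2)) (f : Fin k → Fin (m + 2)), Z i f →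
  (i.val < m → ∃ t, (f t).val = i.val + 1) ∧
  (i.val = m → ∃ t, (f t).val = m + 1 ∨ (f t).val = 0) ∧
  (i.val = m + 1 → ∃ t, (f t).val = 0 ∨ (f t).val = 1)

variable {Z}

theorem IsW.down (h : IsW Z) {S : Finset (Fin (m + 2))} {r : ℕ} {x : Fin (m + 2)}
    (hx : x ∈ (step Z)^[r] S) (d : ℕ) (y : Fin (m + 2)) (hy : y.val + d = x.val) :
    y ∈ (step Z)^[r + d] S := by
  induction d generalizing y with
  | zero =>
    have : y = x := Fin.ext (by omega)
    subst this
    exact hx
  | succ d ih =>
    have h1 := ih ⟨y.val + 1, by omega⟩ (by simp only; omega)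
    exact mem_iter_succ Z h1 ((h _ _).2 (Or.inl rfl))

theorem IsW.top_of_zero (h : IsW Z) {S : Finset (Fin (m + 2))} {r : ℕ} {x : Fin (m + 2)}
    (hx : x ∈ (step Z)^[r] S) (h0 : x.val = 0 ∨ x.val = 1) (y : Fin (m + 2))
    (hy : y.val = m + 1) : y ∈ (step Z)^[r + 1] S :=
  mem_iter_succ Z hx ((h _ _).2 (Or.inr ⟨hy, h0⟩))

/-- One long loop. -/
theorem IsW.loopA (h : IsW Z) {S : Finset (Fin (m + 2))} {r : ℕ} {x : Fin (m + 2)}
    (hx : x ∈ (step Z)^[r] S) : x ∈ (step Z)^[r + (m + 2)] S := by
  have h1 := h.down hx x.val 0 (by simp)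
  have h2 := h.top_of_zero h1 (Or.inl rfl) (Fin.last (m + 1)) rfl
  have h3 := h.down h2 (m + 1 - x.val) x (by simp only [Fin.val_last]; omega)
  have e : r + x.val + 1 + (m + 1 - x.val) = r + (m + 2) := by omega
  rwa [e] at h3

/-- One short loop. -/
theorem IsW.loopB (h : IsW Z) {S : Finset (Fin (m + 2))} {r : ℕ} {x : Fin (m + 2)}
    (hx : x ∈ (step Z)^[r] S) (hx0 : 1 ≤ x.val) : x ∈ (step Z)^[r + (m + 1)] S := by
  have h1 := h.down hx (x.val - 1) ⟨1, by omega⟩ (by simp only; omega)
  have h2 := h.top_of_zero h1 (Or.inr rfl) (Fin.last (m + 1)) rfl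
  have h3 := h.down h2 (m + 1 - x.val) x (by simp only [Fin.val_last]; omega)
  have e : r + (x.val - 1) + 1 + (m + 1 - x.val) = r + (m + 1) := by omega
  rwa [e] at h3

theorem IsW.loops (h : IsW Z) {S : Finset (Fin (m + 2))} {r : ℕ} {x : Fin (m + 2)}
    (hx : x ∈ (step Z)^[r] S) (hx0 : 1 ≤ x.val) (a b : ℕ) :
    x ∈ (step Z)^[r + (a * (m + 2) + b * (m + 1))] S := by
  induction a with
  | zero =>
    induction b with
    | zero => simpa using hx
    | succ b ih =>
      have := h.loopB ih hx0
      have e : r + (0 * (m + 2) + b * (m + 1)) + (m + 1) =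
        r + (0 * (m + 2) + (b + 1) * (m + 1)) := by ring
      rwa [e] at this
  | succ a ih =>
    have := h.loopA ih
    have e : r + (a * (m + 2) + b * (m + 1)) + (m + 2) =
      r + ((a + 1) * (m + 2) + b * (m + 1)) := by ring
    rwa [e] at this

/-- Frobenius representation. -/
theorem repr_large (q : ℕ) (hq : (m + 1) * m ≤ q) : ∃ a b, q = a * (m + 2) + b * (m + 1) := by
  have h1 := Nat.div_add_mod q (m + 1)
  have h2 : q % (m + 1) < m + 1 := Nat.mod_lt q (Nat.succ_pos m)
  have h3 : m ≤ q / (m + 1) := by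
    rw [Nat.le_div_iff_mul_le (Nat.succ_pos m)]
    rw [mul_comm]
    exact hq
  obtain ⟨c, hc⟩ := Nat.exists_eq_add_of_le (show q % (m + 1) ≤ q / (m + 1) by omega)
  refine ⟨q % (m + 1), c, ?_⟩
  rw [hc] at h1
  nlinarith

/-- The Wielandt pattern fills everything after `(n - 1)^2 + 1` steps. -/
theorem IsW.full (h : IsW Z) (j : Fin (m + 2)) : (step Z)^[(m + 1) ^ 2 + 1] {j} = univ := by
  apply eq_univ_of_forall
  intro y
  have hj : j ∈ (step Z)^[0] {j} := by simp
  rcases Nat.eq_zero_or_pos j.val with h0 | h0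
  · have h1 := h.top_of_zero hj (Or.inl h0) (Fin.last (m + 1)) rfl
    obtain ⟨a, b, hab⟩ := repr_large (m := m) ((m + 1) * m + y.val) (by omega)
    have h2 := h.loops h1 (by simp only [Fin.val_last]; omega) a b
    have h3 := h.down h2 (m + 1 - y.val) y (by simp only [Fin.val_last]; omega)
    have e : 0 + 1 + (a * (m + 2) + b * (m + 1)) + (m + 1 - y.val) = (m + 1) ^ 2 + 1 := by
      rw [← hab]
      have := y.2
      zify [show y.val ≤ m + 1 by omega]
      ring
    rwa [e] at h3
  · rcases Nat.lt_or_ge y.val j.val with h1 | h1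
    · obtain ⟨d, hd⟩ := Nat.exists_eq_add_of_lt h1
      have hj2 := j.2
      have hq : (m + 1) * m ≤ (m + 1) ^ 2 + 1 - (d + 1) := by
        have e : (m + 1) ^ 2 = (m + 1) * m + (m + 1) := by ring
        omega
      obtain ⟨a, b, hab⟩ := repr_large (m := m) _ hq
      have h2 := h.loops hj h0 a b
      have h3 := h.down h2 (d + 1) y (by omega)
      have e : 0 + (a * (m + 2) + b * (m + 1)) + (d + 1) = (m + 1) ^ 2 + 1 := by
        rw [← hab]
        have e : (m + 1) ^ 2 = (m + 1) * m + (m + 1) := by ring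
        omega
      rwa [e] at h3
    · obtain ⟨d, hd⟩ := Nat.exists_eq_add_of_le h1
      have h2 := h.down hj (j.val - 1) ⟨1, by omega⟩ (by simp only; omega)
      have h3 := h.top_of_zero h2 (Or.inr rfl) (Fin.last (m + 1)) rfl
      obtain ⟨a, b, hab⟩ := repr_large (m := m) ((m + 1) * m + 1 + d) (by omega)
      have h4 := h.loops h3 (by simp only [Fin.val_last]; omega) a b
      have h5 := h.down h4 (m + 1 - y.val) y (by simp only [Fin.val_last]; omega)
      have e : 0 + (j.val - 1) + 1 + (a * (m + 2) + b * (m + 1)) + (m + 1 - y.val) =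
          (m + 1) ^ 2 + 1 := by
        rw [← hab]
        have := y.2
        have e : (m + 1) ^ 2 = (m + 1) * m + (m + 1) := by ring
        omega
      rwa [e] at h5

/-- Membership of `y` in the orbit of `{0}`. -/
theorem IsW.orbit (h : IsW Z) (y : Fin (m + 2)) (a b : ℕ) :
    y ∈ (step Z)^[m + 2 - y.val + (a * (m + 2) + b * (m + 1))] {0} := by
  have h0 : (0 : Fin (m + 2)) ∈ (step Z)^[0] {0} := by simp
  have h1 := h.top_of_zero h0 (Or.inl rfl) (Fin.last (m + 1)) rfl
  have h2 := h.loops h1 (by simp only [Fin.val_last]; omega) a b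
  have h3 := h.down h2 (m + 1 - y.val) y (by simp only [Fin.val_last]; omega)
  have e : 0 + 1 + (a * (m + 2) + b * (m + 1)) + (m + 1 - y.val) =
      m + 2 - y.val + (a * (m + 2) + b * (m + 1)) := by omega
  rwa [e] at h3

theorem IsW.orbit' (h : IsW Z) (y : Fin (m + 2)) (a b t : ℕ)
    (ht : t + y.val = m + 2 + (a * (m + 2) + b * (m + 1))) : y ∈ (step Z)^[t] {0} := by
  have h1 := h.orbit y a b
  have e : m + 2 - y.val + (a * (m + 2) + b * (m + 1)) = t := by omega
  rwa [e] at h1

/-- At time `m (m + 1) + 1 + u` everything except `m - u` is present. -/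
theorem IsW.late (h : IsW Z) (u : ℕ) (hu : u ≤ m) (y : Fin (m + 2)) (hy : y.val + u ≠ m) :
    y ∈ (step Z)^[m * (m + 1) + 1 + u] {0} := by
  have hy2 := y.2
  rcases Nat.lt_or_ge (y.val + u) m with h1 | h1
  · obtain ⟨c, hc⟩ := Nat.exists_eq_add_of_lt h1
    apply h.orbit' y (y.val + u) c
    have h2 : m * (m + 1) = (y.val + u + c + 1) * (m + 1) := by rw [← hc]
    rw [h2]
    ring
  · obtain ⟨w, hw⟩ : ∃ w, y.val + u = m + 1 + w := Nat.exists_eq_add_of_le (by omega)
    obtain ⟨c, hc⟩ := Nat.exists_eq_add_of_le (show w ≤ m by omega)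
    apply h.orbit' y w c
    have : m * (m + 1) + 1 + u + y.val = m * (m + 1) + 1 + (m + 1 + w) := by omega
    have h2 : m * (m + 1) = (w + c) * (m + 1) := by rw [← hc]
    rw [this, h2]
    ring

/-- Necessity of the condition on the other entries. -/
theorem IsW.cond (h : IsW Z) (hN : (step Z)^[(m + 1) ^ 2] {0} ≠ univ) : Cond Z := by
  have hU : step Z univ = univ := by
    apply eq_univ_of_forall
    intro x
    have h1 := h.full 0
    rw [iter_succ] at h1
    have h2 : x ∈ step Z ((step Z)^[(m + 1) ^ 2] {0}) := by rw [h1]; exact mem_univ _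
    exact step_mono Z (subset_univ _) h2
  have hno : ∀ t, t ≤ (m + 1) ^ 2 → (step Z)^[t] {0} ≠ univ := by
    intro t ht h1
    exact hN (iter_univ_le Z hU ht h1)
  have esq : (m + 1) ^ 2 = m * (m + 1) + m + 1 := by ring
  intro i f hif
  refine ⟨?_, ?_, ?_⟩
  · intro hi
    by_contra hne
    push Not at hne
    obtain ⟨u, hu⟩ := Nat.exists_eq_add_of_lt hi
    -- i + u + 1 = m
    have h1 : i ∈ (step Z)^[m * (m + 1) + 1 + u + 1] {0} := by
      rw [iter_succ, mem_step]
      refine ⟨f, hif, fun t => ?_⟩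
      apply h.late u (by omega)
      have := hne t
      omega
    apply hno (m * (m + 1) + 1 + u + 1) (by omega)
    apply eq_univ_of_forall
    intro y
    by_cases hy : y = i
    · rw [hy]; exact h1
    · have h2 := h.late (u + 1) (by omega) y (by
        intro h3
        apply hy
        apply Fin.ext
        omega)
      have e : m * (m + 1) + 1 + (u + 1) = m * (m + 1) + 1 + u + 1 := by ring
      rwa [e] at h2
  · intro hi
    by_contra hne
    push Not at hne
    have h1 : i ∈ (step Z)^[m * (m + 1) + 1] {0} := by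
      rw [iter_succ, mem_step]
      refine ⟨f, hif, fun t => ?_⟩
      obtain ⟨h2, h3⟩ := hne t
      have h4 := (f t).2
      obtain ⟨w, hw⟩ : ∃ w, (f t).val = 1 + w := Nat.exists_eq_add_of_le (by omega)
      obtain ⟨c, hc⟩ := Nat.exists_eq_add_of_lt (show w < m by omega)
      apply h.orbit' (f t) w c
      have h5 : m * (m + 1) = (w + c + 1) * (m + 1) := by rw [← hc]
      rw [hw, h5]
      ring
    apply hno (m * (m + 1) + 1) (by omega)
    apply eq_univ_of_forall
    intro y
    by_cases hy : y = i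
    · rw [hy]; exact h1
    · exact h.late 0 (Nat.zero_le _) y (by
        intro h3
        apply hy
        apply Fin.ext
        omega)
  · intro hi
    by_contra hne
    push Not at hne
    rcases Nat.eq_zero_or_pos m with hm | hm
    · rcases Nat.eq_zero_or_pos k with hk | hk
      · -- degenerate order: a full step from the empty index set
        subst hk
        have h1 : i ∈ step Z {i} := (mem_step Z).2 ⟨f, hif, fun t => t.elim0⟩
        have h2 : i ∈ step Z {(⟨1, by omega⟩ : Fin (m + 2))} :=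
          (mem_step Z).2 ⟨f, hif, fun t => t.elim0⟩
        have h3 : ∀ S, i ∈ step Z S := fun S => (mem_step Z).2 ⟨f, hif, fun t => t.elim0⟩
        have h4 : (⟨0, by omega⟩ : Fin (m + 2)) ∈ step Z {(⟨1, by omega⟩ : Fin (m + 2))} :=
          (h _ _).2 (Or.inl rfl)
        obtain ⟨g, hg, _⟩ := (mem_step Z).1 h4
        apply hno 1 (by nlinarith)
        apply eq_univ_of_forall
        intro y
        change y ∈ step Z {0}
        have hy2 := y.2
        rcases Nat.lt_or_ge y.val 1 with h5 | h5
        · have : y = ⟨0, by omega⟩ := Fin.ext (by simp only; omega)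
          rw [this]
          exact (mem_step Z).2 ⟨g, hg, fun t => t.elim0⟩
        · have : y = i := Fin.ext (by omega)
          rw [this]
          exact h3 _
      · have h2 := hne ⟨0, hk⟩
        have h3 := (f ⟨0, hk⟩).2
        omega
    · obtain ⟨m', hm'⟩ := Nat.exists_eq_add_of_lt hm
      have h1 : i ∈ (step Z)^[m * (m + 1) - 1 + 1] {0} := by
        rw [iter_succ, mem_step]
        refine ⟨f, hif, fun t => ?_⟩
        obtain ⟨h2, h3⟩ := hne t
        have h4 := (f t).2
        obtain ⟨w, hw⟩ : ∃ w, (f t).val = 2 + w := Nat.exists_eq_add_of_le (by omega)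
        obtain ⟨c, hc⟩ := Nat.exists_eq_add_of_lt (show w < m by omega)
        apply h.orbit' (f t) w c
        have h5 : 1 ≤ m * (m + 1) := Nat.mul_pos hm (Nat.succ_pos m)
        have h6 : m * (m + 1) - 1 + (f t).val = m * (m + 1) + (1 + w) := by omega
        have h7 : m * (m + 1) = (w + c + 1) * (m + 1) := by rw [← hc]
        rw [h6, h7]
        ring
      have h5 : 1 ≤ m * (m + 1) := Nat.mul_pos hm (Nat.succ_pos m)
      have e : m * (m + 1) - 1 + 1 = m * (m + 1) := by omega
      rw [e] at h1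
      have h2 : (⟨m, by omega⟩ : Fin (m + 2)) ∈ (step Z)^[m * (m + 1) + 1] {0} :=
        mem_iter_succ Z h1 ((h _ _).2 (Or.inl hi))
      apply hno (m * (m + 1) + 1) (by omega)
      apply eq_univ_of_forall
      intro y
      by_cases hy : y.val = m
      · have : y = ⟨m, by omega⟩ := Fin.ext hy
        rw [this]; exact h2
      · exact h.late 0 (Nat.zero_le _) y (by omega)

/-- Sufficiency of the condition: the orbit of `{0}` misses `0` at time `(n - 1)^2`. -/
theorem IsW.not_full (h : IsW Z) (hC : Cond Z) : (step Z)^[(m + 1) ^ 2] {0} ≠ univ := by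
  have key : ∀ t (i : Fin (m + 2)), i ∈ (step Z)^[t + 1] {0} →
      ∃ a b, t + i.val = m + 1 + a * (m + 2) + b * (m + 1) := by
    intro t
    induction t with
    | zero =>
      intro i hi
      rw [zero_add, iterate_one] at hi
      have := (h i 0).1 hi
      refine ⟨0, 0, ?_⟩
      rcases this with h1 | ⟨h1, _⟩
      · simp at h1
      · omega
    | succ t ih =>
      intro i hi
      rw [iter_succ, mem_step] at hi
      obtain ⟨f, hf, hft⟩ := hi
      obtain ⟨c1, c2, c3⟩ := hC i f hf
      have hi2 := i.2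
      rcases Nat.lt_or_ge i.val m with h1 | h1
      · obtain ⟨s, hs⟩ := c1 h1
        obtain ⟨a, b, hab⟩ := ih (f s) (hft s)
        exact ⟨a, b, by omega⟩
      · rcases Nat.eq_or_lt_of_le h1 with h2 | h2
        · obtain ⟨s, hs⟩ := c2 h2.symm
          obtain ⟨a, b, hab⟩ := ih (f s) (hft s)
          rcases hs with hs | hs
          · exact ⟨a, b, by omega⟩
          · refine ⟨a, b + 1, ?_⟩
            rw [add_mul, one_mul]
            omega
        · obtain ⟨s, hs⟩ := c3 (by omega)
          obtain ⟨a, b, hab⟩ := ih (f s) (hft s)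
          rcases hs with hs | hs
          · refine ⟨a + 1, b, ?_⟩
            rw [add_mul, one_mul]
            omega
          · refine ⟨a, b + 1, ?_⟩
            rw [add_mul, one_mul]
            omega
  intro hfull
  have h0 : (0 : Fin (m + 2)) ∈ (step Z)^[(m + 1) ^ 2] {0} := by rw [hfull]; exact mem_univ _
  have e : (m + 1) ^ 2 = (m * (m + 2)) + 1 := by ring
  rw [e] at h0
  obtain ⟨a, b, hab⟩ := key _ _ h0
  -- m (m + 2) = (m + 1) (b + 1) + a (m + 2)
  have h1 : m * (m + 2) = a * (m + 2) + (b + 1) * (m + 1) := by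
    have : ((0 : Fin (m + 2)) : ℕ) = 0 := rfl
    rw [this] at hab
    rw [add_mul, one_mul]
    omega
  have ha : a ≤ m := by
    by_contra hlt
    push Not at hlt
    have : (m + 1) * (m + 2) ≤ a * (m + 2) := Nat.mul_le_mul_right _ hlt
    nlinarith
  obtain ⟨c, hc⟩ := Nat.exists_eq_add_of_le ha
  have h2 : c * (m + 2) = (b + 1) * (m + 1) := by
    have : m * (m + 2) = a * (m + 2) + c * (m + 2) := by
      rw [← add_mul, ← hc]
    omega
  have h3 : (m + 1) ∣ c := by
    have h4 : (m + 1) ∣ c * (m + 2) := by rw [h2]; exact dvd_mul_left _ _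
    have h5 : c * (m + 2) = c * (m + 1) + c := by ring
    rw [h5] at h4
    exact (Nat.dvd_add_right (dvd_mul_left _ _)).1 h4
  rcases Nat.eq_zero_or_pos c with h4 | h4
  · subst h4
    have : 0 < (b + 1) * (m + 1) := Nat.mul_pos (Nat.succ_pos _) (Nat.succ_pos _)
    omega
  · have := Nat.le_of_dvd h4 h3
    omega

end Pool.Agent.Lib.MP_9d720b_co
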